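import Pool.Agent.V11178.SignedCrit

set_option autoImplicit false

open Finset

namespace Pool.Agent.Results.MP_c7e63d_co.CriticalNumber

open Pool.Agent.V11178 Pool.Agent.V11178.SignedCrit

/-- `χ±(ℤ_n,[0,s])`: the least `m` with `[0,s]± A = ℤ_n` for every `A ⊆ ℤ_n` with `|A| ≥ m`. -/
noncomputable def chiPM (n s : ℕ) : ℕ :=
  sInf {m : ℕ | ∀ A : Finset (ZMod n), m ≤ A.card → signedUpTo A s = Set.univ}

/-- For all positive `n` and `s`, `χ±(ℤ_n,[0,s]) = v±(n,s) + 1`. -/
theorem result : ∀ n s : ℕ, 0 < n → 0 < s → (chiPM n s : ℤ) = vPM n s + 1 := by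
  intro n s hn hs
  haveI : NeZero n := ⟨by omega⟩
  have hv := neg_one_le_vPM hn hs
  have hmem : (vPM n s + 1).toNat ∈
      {m : ℕ | ∀ A : Finset (ZMod n), m ≤ A.card → signedUpTo A s = Set.univ} := by
    intro A hA
    by_contra hne
    have := card_le_of_not_univ hn hs A hne
    omega
  have hle : chiPM n s ≤ (vPM n s + 1).toNat := Nat.sInf_le hmem
  have hspec : ∀ A : Finset (ZMod n), chiPM n s ≤ A.card → signedUpTo A s = Set.univ :=
    Nat.sInf_mem (s := {m : ℕ | ∀ A : Finset (ZMod n), m ≤ A.card → signedUpTo A s = Set.univ})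
      ⟨_, hmem⟩
  have hge : vPM n s + 1 ≤ chiPM n s := by
    rcases lt_or_ge (vPM n s) 0 with h | h
    · omega
    · obtain ⟨A, hA1, hA2⟩ := exists_not_univ hn hs h
      by_contra hcon
      apply hA2
      apply hspec
      omega
  omega

end Pool.Agent.Results.MP_c7e63d_co.CriticalNumber
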